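import Mathlib
import Pool.Agent.H165R2.F5.Main

/-! MP_c95763_co: covers of a bridgeless cubic graph by three cycles, two of them 2-factors, starting from any 2-factor
with at most four odd circuits. -/
set_option autoImplicit false

namespace Pool.Agent.Results.MP_c95763_co.FourOddCircuits

theorem result :
    ∀ (V : Type) [Fintype V] (G : SimpleGraph V),
      (∀ v : V, (G.neighborSet v).ncard = 3) →
      (∀ v w : V, G.Adj v w → (G.deleteEdges {s(v, w)}).Reachable v w) →
      ∀ F₁ : SimpleGraph V, F₁ ≤ G → (∀ v : V, (F₁.neighborSet v).ncard = 2) → F₁.oddComponents.ncard ≤ 4 →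
      ∃ F₂ C : SimpleGraph V,
        F₂ ≤ G ∧ C ≤ G ∧
        (∀ v : V, (F₂.neighborSet v).ncard = 2) ∧
        (∀ v : V, Even ((C.neighborSet v).ncard)) ∧
        F₁ ⊔ F₂ ⊔ C = G :=
  H165R2.F5.T_F3 H165R2.F5.jn

end Pool.Agent.Results.MP_c95763_co.FourOddCircuits
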